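import Pool.Agent.Q7.GK.Stm
import Pool.Agent.Q252.LS.NSP
import Pool.Agent.TeamU.B2

/-! Lemma job 32979 (GFIN, project GK of helper7), by helper177. -/

set_option autoImplicit false

namespace Pool.Agent.Q177.GK

open NumberField IsDedekindDomain Filter Topology Finset
open Pool.Agent.Q7.LK
open Pool.Agent.Q7.LS (Ab Un nmU SUn NS sX)
open Pool.Agent.Q7.GK
open Pool.Agent.W289.SL (IsIwasawaLog)
open Pool.Agent.TeamU
open Pool.Agent.Q252.LS (isGalois_kum over_of_ab lpw_of_free)

section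

variable {p : ℕ} [Fact p.Prime] {Lg : ℂ_[p] → ℂ_[p]} {K : Type} [Field K] [NumberField K]

lemma lam_mul (hL : IsIwasawaLog p Lg) (P : HeightOneSpectrum (𝓞 K)) {x y : K} (hx : x ≠ 0)
    (hy : y ≠ 0) : lam Lg P (x * y) = lam Lg P x + lam Lg P y := by
  unfold lam
  rw [← Finset.sum_add_distrib]
  refine Finset.sum_congr rfl fun σ _ => ?_
  split_ifs
  · rw [map_mul, hL.mul _ _ ((map_ne_zero σ).2 hx) ((map_ne_zero σ).2 hy)]
  · rw [add_zero]

lemma lam_one (hL : IsIwasawaLog p Lg) (P : HeightOneSpectrum (𝓞 K)) : lam Lg P (1 : K) = 0 := by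
  have h := lam_mul hL P (one_ne_zero (α := K)) one_ne_zero
  rw [mul_one] at h
  exact left_eq_add.1 h

lemma lam_pow (hL : IsIwasawaLog p Lg) (P : HeightOneSpectrum (𝓞 K)) {x : K} (hx : x ≠ 0) (n : ℕ) :
    lam Lg P (x ^ n) = n * lam Lg P x := by
  induction n with
  | zero => rw [pow_zero, lam_one hL, Nat.cast_zero, zero_mul]
  | succ n ih =>
    rw [pow_succ, lam_mul hL P (pow_ne_zero n hx) hx, ih, Nat.cast_succ]
    ring

lemma ab_self {v P : HeightOneSpectrum (𝓞 K)} (h : Pool.Agent.Q7.LS.Ab v P) : P = v := by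
  have h1 : v.asIdeal ≤ P.asIdeal := by
    intro x hx
    have h2 := h (Ideal.mem_map_of_mem _ hx)
    exact h2
  exact (HeightOneSpectrum.ext (v.isMaximal.eq_of_le P.isPrime.ne_top h1)).symm

lemma ab_refl (v : HeightOneSpectrum (𝓞 K)) : Pool.Agent.Q7.LS.Ab v v := by
  unfold Pool.Agent.Q7.LS.Ab
  rw [Ideal.map_le_iff_le_comap]
  intro x hx
  exact hx

omit [Fact p.Prime] in
/-- finitely many primes above `p` -/
lemma fin_dp (hp : p ≠ 0) : {v : HeightOneSpectrum (𝓞 K) | Dp p v}.Finite := by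
  have hp' : (p : K) ≠ 0 := Nat.cast_ne_zero.2 hp
  have h1 := HeightOneSpectrum.Support.finite (𝓞 K) (p : K)
  have h2 := HeightOneSpectrum.Support.finite (𝓞 K) (p : K)⁻¹
  refine (h1.union h2).subset ?_
  intro v hv
  have hv0 : v.valuation K (p : K) ≠ 0 := (Valuation.ne_zero_iff _).2 hp'
  have hv1 : v.valuation K (p : K) ≠ 1 := by
    intro h
    have h1 : (v.valuation K (algebraMap (𝓞 K) K (p : 𝓞 K))) = 1 := by
      rw [map_natCast]; exact h
    exact (HeightOneSpectrum.valuation_eq_one_iff_notMem (K := K) (v := v)).mp h1 hv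
  rcases lt_or_gt_of_ne hv1 with h | h
  · right
    change 1 < v.valuation K (p : K)⁻¹
    rw [map_inv₀]
    exact (one_lt_inv₀ (zero_lt_iff.2 hv0)).2 h
  · left
    exact h

end

section

variable {p : ℕ} [Fact p.Prime] {Lg : ℂ_[p] → ℂ_[p]} {F L : Type} [Field F] [NumberField F]
  [Field L] [NumberField L] [Algebra F L]

theorem part1 (hN : S_GN) (hLg : IsIwasawaLog p Lg) (hdeg : Module.finrank F L = p)
    (G : Set (HeightOneSpectrum (𝓞 F))) (hG : ∀ v ∈ G, Dp p v) (R R' : ℕ)
    (h : IndG Lg G (NS L G) R) (h' : IndG (L := F) Lg G (SUn F G) R') :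
    IndG Lg G (SUn L G) (R + R') := by
  obtain ⟨ε, hε, hind⟩ := h
  obtain ⟨x, hx, hind'⟩ := h'
  set y : Fin R' → Lˣ := fun j => Units.map (algebraMap F L : F →* L) (x j) with hy
  refine ⟨Fin.append ε y, ?_, ?_⟩
  · intro i
    refine Fin.addCases (fun i => ?_) (fun j => ?_) i
    · rw [Fin.append_left]
      exact (hε i).1
    · rw [Fin.append_right]
      intro v hv P hP
      change P.valuation L (algebraMap F L ((x j : Fˣ) : F)) = 1
      rw [val_over (over_of_ab hP)]
      have h1 : v.valuation F ((x j : Fˣ) : F) = 1 := hx j v hv v (ab_refl v)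
      rw [h1, one_pow]
  · intro a ha
    have hb : ∀ v ∈ G, ∑ j : Fin R', a (Fin.natAdd R j) * lam Lg v ((x j : Fˣ) : F) = 0 := by
      intro v hv
      obtain ⟨A, hA, hnorm⟩ := (hN p Lg hLg F L).1 v (hG v hv)
      have hsum : ∑ P ∈ A, ∑ i, a i * lam Lg P ((Fin.append ε y i : Lˣ) : L) = 0 :=
        Finset.sum_eq_zero fun P hP => ha v hv P ((hA P).1 hP)
      rw [Finset.sum_comm] at hsum
      have h1 : ∀ i, ∑ P ∈ A, a i * lam Lg P ((Fin.append ε y i : Lˣ) : L) =
          a i * lam Lg v (Algebra.norm F ((Fin.append ε y i : Lˣ) : L)) := by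
        intro i
        rw [← Finset.mul_sum, hnorm _ (Units.ne_zero _)]
      rw [Finset.sum_congr rfl fun i _ => h1 i, Fin.sum_univ_add] at hsum
      have h2 : ∀ i : Fin R, lam Lg v (Algebra.norm F ((ε i : Lˣ) : L)) = 0 := by
        intro i
        have h4 : Algebra.norm F ((ε i : Lˣ) : L) = 1 := by
          have h3 : nmU F (ε i) = 1 := (hε i).2
          exact congrArg Units.val h3
        rw [h4, lam_one hLg]
      have h3 : ∀ j : Fin R', lam Lg v (Algebra.norm F ((y j : Lˣ) : L)) =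
          p * lam Lg v ((x j : Fˣ) : F) := by
        intro j
        have h4 : Algebra.norm F ((y j : Lˣ) : L) = ((x j : Fˣ) : F) ^ p := by
          change Algebra.norm F (algebraMap F L ((x j : Fˣ) : F)) = _
          rw [Algebra.norm_algebraMap, hdeg]
        rw [h4, lam_pow hLg v (Units.ne_zero _)]
      simp only [Fin.append_left, Fin.append_right, h2, h3, mul_zero, Finset.sum_const_zero,
        zero_add] at hsum
      have hp0 : (p : ℂ_[p]) ≠ 0 := Nat.cast_ne_zero.2 (Fact.out : p.Prime).ne_zero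
      have h5 : (p : ℂ_[p]) * ∑ j, a (Fin.natAdd R j) * lam Lg v ((x j : Fˣ) : F) = 0 := by
        rw [Finset.mul_sum, ← hsum]
        exact Finset.sum_congr rfl fun j _ => by ring
      exact (mul_eq_zero.1 h5).resolve_left hp0
    have hb0 : (fun j => a (Fin.natAdd R j)) = 0 := by
      apply hind'
      intro v hv P hP
      rw [ab_self hP]
      exact hb v hv
    have h4 : ∀ j, a (Fin.natAdd R j) = 0 := fun j => congrFun hb0 j
    have ha0 : (fun i => a (Fin.castAdd R' i)) = 0 := by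
      apply hind
      intro v hv P hP
      have h5 := ha v hv P hP
      rw [Fin.sum_univ_add] at h5
      simp only [Fin.append_left, Fin.append_right, h4, zero_mul, Finset.sum_const_zero,
        add_zero] at h5
      exact h5
    funext i
    refine Fin.addCases (fun i => ?_) (fun j => ?_) i
    · exact congrFun ha0 i
    · exact congrFun hb0 j

open Classical in
theorem fibre {ζ d : F} (hζ : IsPrimitiveRoot ζ p) (hK : Kum p F L d) (hd : ¬ IsPow p d)
    (v : HeightOneSpectrum (𝓞 F)) (A : Finset (HeightOneSpectrum (𝓞 L)))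
    (hA : ∀ P ∈ A, Over P v) : A.card ≤ p ∧ (¬ Lpw p v d → A.card ≤ 1) := by
  have hp : p.Prime := Fact.out
  have hG : IsGalois F L := isGalois_kum hζ hK hd
  have hfd : FiniteDimensional F L := Module.Finite.of_restrictScalars_finite ℚ F L
  have hcard : Nat.card (L ≃ₐ[F] L) = p := by rw [IsGalois.card_aut_eq_finrank, hK.deg]
  rcases A.eq_empty_or_nonempty with rfl | ⟨P, hP⟩
  · simp
  have hO := hA P hP
  have hsub : A ⊆ (univ : Finset (L ≃ₐ[F] L)).image (fun σ => act σ P) := by
    intro Q hQ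
    obtain ⟨σ, hσ⟩ := exists_act hO (hA Q hQ)
    exact Finset.mem_image.2 ⟨σ, mem_univ _, hσ⟩
  refine ⟨?_, ?_⟩
  · calc A.card ≤ ((univ : Finset (L ≃ₐ[F] L)).image (fun σ => act σ P)).card :=
          Finset.card_le_card hsub
      _ ≤ (univ : Finset (L ≃ₐ[F] L)).card := Finset.card_image_le
      _ = p := by rw [Finset.card_univ, ← Nat.card_eq_fintype_card, hcard]
  · intro hv
    have hd0 : d ≠ 0 := by
      rintro rfl
      exact hd ⟨0, by rw [zero_pow hp.ne_zero]⟩
    obtain ⟨ρ, hρ⟩ := hK.root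
    have hfix : ∃ σ : L ≃ₐ[F] L, σ ≠ 1 ∧ act σ P = P := by
      by_contra hno
      push Not at hno
      exact hv (lpw_of_free hd0 hρ hO hno)
    obtain ⟨σ, hσ, hσP⟩ := hfix
    have hpow : ∀ n : ℕ, act (σ ^ n) P = P := by
      intro n
      induction n with
      | zero => rw [pow_zero, act_one]
      | succ n ih => rw [pow_succ, act_mul, hσP, ih]
    have hsub' : A ⊆ {P} := by
      intro Q hQ
      obtain ⟨g, hg⟩ := exists_act hO (hA Q hQ)
      obtain ⟨n, hn⟩ := mem_powers_of_prime_card hcard hσ (g' := g)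
      rw [Finset.mem_singleton, ← hg, ← hn]
      exact hpow n
    exact (Finset.card_le_card hsub').trans (Finset.card_singleton P).le

open Classical in
theorem part2 {ζ d : F} (hζ : IsPrimitiveRoot ζ p) (hK : Kum p F L d) (hd : ¬ IsPow p d) :
    {P : HeightOneSpectrum (𝓞 L) | (p : 𝓞 L) ∈ P.asIdeal}.ncard ≤
      {v : HeightOneSpectrum (𝓞 F) | Dp p v}.ncard +
        (p - 1) * sX p {v : HeightOneSpectrum (𝓞 F) | Dp p v} d := by
  have hp : p.Prime := Fact.out
  have hfin : {v : HeightOneSpectrum (𝓞 F) | Dp p v}.Finite := fin_dp hp.ne_zero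
  set B : Finset (HeightOneSpectrum (𝓞 F)) := hfin.toFinset with hB
  set fib : HeightOneSpectrum (𝓞 F) → Finset (HeightOneSpectrum (𝓞 L)) :=
    fun v => (over_finite (E := L) v).toFinset with hfib
  have hsub : {P : HeightOneSpectrum (𝓞 L) | (p : 𝓞 L) ∈ P.asIdeal} ⊆
      ((B.biUnion fib : Finset (HeightOneSpectrum (𝓞 L))) : Set (HeightOneSpectrum (𝓞 L))) := by
    intro P hP
    obtain ⟨v, hv⟩ := b2_exists_under (M := F) P
    rw [Finset.mem_coe, Finset.mem_biUnion]
    refine ⟨v, ?_, ?_⟩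
    · rw [hB, Set.Finite.mem_toFinset]
      change (p : 𝓞 F) ∈ v.asIdeal
      rw [← hv, Ideal.mem_comap, map_natCast]
      exact hP
    · rw [hfib]
      simp only [Set.Finite.mem_toFinset]
      exact hv
  have h1 : {P : HeightOneSpectrum (𝓞 L) | (p : 𝓞 L) ∈ P.asIdeal}.ncard ≤ (B.biUnion fib).card := by
    rw [← Set.ncard_coe_finset]
    exact Set.ncard_le_ncard hsub (Finset.finite_toSet _)
  have h2 : ∀ v ∈ B, (fib v).card ≤ 1 + if Lpw p v d then (p - 1) else 0 := by
    intro v _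
    have h3 := fibre hζ hK hd v (fib v) (by
      intro P hP
      rw [hfib] at hP
      simp only [Set.Finite.mem_toFinset] at hP
      exact hP)
    split_ifs with h4
    · have := hp.one_lt
      omega
    · exact h3.2 h4
  have h5 : sX p {v : HeightOneSpectrum (𝓞 F) | Dp p v} d = (B.filter (fun v => Lpw p v d)).card := by
    unfold sX
    rw [← Set.ncard_coe_finset]
    congr 1
    ext v
    rw [Finset.coe_filter]
    simp only [Set.mem_ofPred_eq, hB, Set.Finite.mem_toFinset]
  have h6 : {v : HeightOneSpectrum (𝓞 F) | Dp p v}.ncard = B.card := by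
    rw [Set.ncard_eq_toFinset_card _ hfin]
  rw [h5, h6]
  calc _ ≤ (B.biUnion fib).card := h1
    _ ≤ ∑ v ∈ B, (fib v).card := Finset.card_biUnion_le
    _ ≤ ∑ v ∈ B, (1 + if Lpw p v d then (p - 1) else 0) := Finset.sum_le_sum h2
    _ = B.card + (p - 1) * (B.filter (fun v => Lpw p v d)).card := by
      rw [Finset.sum_add_distrib, Finset.sum_const, smul_eq_mul, mul_one, ← Finset.sum_filter,
        Finset.sum_const, smul_eq_mul, mul_comm (p - 1)]

end

/-- **JOB GFIN** -/
theorem gfin (hN : S_GN) : S_GFIN := by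
  intro p _ hp2 Lg hLg F L _ _ _ _ _ ζ d hζ hK hd G hG
  exact ⟨fun R R' h h' => part1 hN hLg hK.deg G hG R R' h h', part2 hζ hK hd⟩

end Pool.Agent.Q177.GK
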